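import Pool.Agent.W2helper23.SG.Stm

/-!
# Project SG (helper23), piece SG5: the cyclic subgroup of the dihedral group of order 8
-/

set_option autoImplicit false
set_option linter.unusedSectionVars false

namespace Pool.Agent.W2helper92.SGD4

open Pool.Agent.R389 Pool.Agent.K4H74.ST Pool.Agent.W2helper23.SG

/-- the unit `i` -/
noncomputable def iu : ℂˣ := Units.mk0 Complex.I Complex.I_ne_zero

lemma iu_sq : iu * iu = -1 := by
  apply Units.ext
  simp [iu]

section

variable {G : Type} [Group G] {s : G →* ℂˣ} (hs : Sg s) {t : G} (ht : s t = -1) {m : G → ℂˣ}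
  (hm : ∀ a b, s a = 1 → s b = 1 → m (a * b) = m a * m b) (hm1 : ∀ a, s a = 1 → m a = 1 ∨ m a = -1)

open Classical in
/-- the function `ψ` on `G` -/
noncomputable def ps (s : G →* ℂˣ) (t : G) (m : G → ℂˣ) (g : G) : ℂˣ :=
  if s g = 1 then e1 s t m g else iu * e1 s t m g

lemma ps_pos {g : G} (h : s g = 1) : ps s t m g = e1 s t m g := by
  rw [ps, if_pos h]

lemma ps_neg {g : G} (h : s g = -1) : ps s t m g = iu * e1 s t m g := by
  rw [ps, if_neg (by rw [h]; exact neg_one_ne)]

include hm1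

/-- in the kernel `η = s` -/
lemma e2_of_ker {g : G} (hg : (s * etaHom hs ht hm) g = 1) : e2 s t m g = s g * e1 s t m g := by
  rw [MonoidHom.mul_apply, etaHom_apply] at hg
  rcases hs g with h | h <;> rcases e1_sg hs ht hm hm1 g with h1 | h1 <;>
    rcases e2_sg hs ht hm hm1 g with h2 | h2 <;> rw [h, h1, h2] at hg ⊢ <;>
    first
      | (simp; done)
      | (exfalso; apply neg_one_ne; simpa using hg)

lemma ps_mul {a b : G} (ha : (s * etaHom hs ht hm) a = 1) :
    ps s t m (a * b) = ps s t m a * ps s t m b := by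
  have h2 := e2_of_ker hs ht hm hm1 ha
  rcases hs a with ha' | ha' <;> rcases hs b with hb | hb
  · have hab : s (a * b) = 1 := by rw [map_mul, ha', hb, one_mul]
    rw [ps_pos hab, ps_pos ha', ps_pos hb, e1_mul hs ht hm, if_pos hb]
  · have hab : s (a * b) = -1 := by rw [map_mul, ha', hb, one_mul]
    rw [ps_neg hab, ps_pos ha', ps_neg hb, e1_mul hs ht hm, if_neg (by rw [hb]; exact neg_one_ne),
      h2, ha', one_mul]
    simp only [mul_comm, mul_left_comm, mul_assoc]
  · have hab : s (a * b) = -1 := by rw [map_mul, ha', hb, mul_one]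
    rw [ps_neg hab, ps_neg ha', ps_pos hb, e1_mul hs ht hm, if_pos hb]
    simp only [mul_comm, mul_left_comm, mul_assoc]
  · have hab : s (a * b) = 1 := by rw [map_mul, ha', hb]; simp
    rw [ps_pos hab, ps_neg ha', ps_neg hb, e1_mul hs ht hm, if_neg (by rw [hb]; exact neg_one_ne),
      h2, ha']
    have e : iu * e1 s t m a * (iu * e1 s t m b) = (iu * iu) * (e1 s t m a * e1 s t m b) := by
      simp only [mul_comm, mul_left_comm, mul_assoc]
    rw [e, iu_sq, mul_assoc]

lemma e1_conj_ker {g u : G} (hg : (s * etaHom hs ht hm) g = 1) (hg' : s g = -1) :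
    e1 s t m (u⁻¹ * g * u) = (s * etaHom hs ht hm) u * e1 s t m g := by
  have hsq : ∀ a, e1 s t m a * e1 s t m a = 1 := by
    intro a
    rcases e1_sg hs ht hm hm1 a with h | h <;> rw [h] <;> simp
  have hsq' : ∀ a, e2 s t m a * e2 s t m a = 1 := by
    intro a
    rcases e2_sg hs ht hm hm1 a with h | h <;> rw [h] <;> simp
  have h2 := e2_of_ker hs ht hm hm1 hg
  have hsc : s (u⁻¹ * g * u) = -1 := by
    rw [map_mul, map_mul, map_inv, mul_comm (s u)⁻¹, mul_assoc, inv_mul_cancel, mul_one, hg']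
  have h3 : e1 s t m (g * u) = s u * (e1 s t m g * e1 s t m u) := by
    rw [e1_mul hs ht hm]
    rcases hs u with h | h
    · rw [if_pos h, h, one_mul]
    · rw [if_neg (by rw [h]; exact neg_one_ne), h, h2, hg', mul_assoc]
  have h4 : e1 s t m (g * u) = e2 s t m u * e1 s t m (u⁻¹ * g * u) := by
    have h5 : g * u = u * (u⁻¹ * g * u) := by group
    rw [h5, e1_mul hs ht hm, if_neg (by rw [hsc]; exact neg_one_ne)]
  have h6 := h3.symm.trans h4
  rw [MonoidHom.mul_apply, etaHom_apply]
  calc e1 s t m (u⁻¹ * g * u) = e2 s t m u * (e2 s t m u * e1 s t m (u⁻¹ * g * u)) := by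
        rw [← mul_assoc, hsq', one_mul]
    _ = e2 s t m u * (s u * (e1 s t m g * e1 s t m u)) := by rw [← h6]
    _ = _ := by simp only [mul_comm, mul_left_comm, mul_assoc]

end

theorem SG5 : P_SG5 := by
  classical
  intro G _ _ s hs t ht m hm hm1 u hu
  have hη : Sg (etaHom hs ht hm) := etaHom_sg hs ht hm hm1
  have hσ : Sg (s * etaHom hs ht hm) := Sg.mul hs hη
  have h1 : m 1 = 1 := by
    have h := hm 1 1 (map_one s) (map_one s)
    rw [mul_one] at h
    exact (mul_eq_left.1 h.symm)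
  have hsq : ∀ a, e1 s t m a * e1 s t m a = 1 := by
    intro a
    rcases e1_sg hs ht hm hm1 a with h | h <;> rw [h] <;> simp
  let ψ : (s * etaHom hs ht hm).ker →* ℂˣ := MonoidHom.mk' (fun h => ps s t m h)
    (fun a b => ps_mul hs ht hm hm1 a.2)
  have hψ : ∀ g, ψ g = ps s t m g := fun _ => rfl
  have hps2 : ∀ g : G, s g = -1 → ps s t m g * ps s t m g = -1 := by
    intro g hg
    rw [ps_neg hg]
    have e : iu * e1 s t m g * (iu * e1 s t m g) = (iu * iu) * (e1 s t m g * e1 s t m g) := by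
      simp only [mul_comm, mul_left_comm, mul_assoc]
    rw [e, iu_sq, hsq, mul_one]
  refine ⟨ψ, ?_, ?_, ?_, ?_⟩
  · intro g
    have e : ψ g ^ (2 ^ 2) = (ψ g * ψ g) * (ψ g * ψ g) := by
      rw [show (2 : ℕ) ^ 2 = 2 + 2 by norm_num, pow_add, sq]
    rw [e, hψ]
    rcases hs g with h | h
    · rw [ps_pos h, hsq, one_mul]
    · rw [hps2 _ h]; simp
  · intro g hg
    rw [hψ, ps_pos hg, e1_pos hg]
  · intro g hg
    rw [hψ, sq, hps2 _ hg]
  · funext g
    -- the right side
    have hmc : ∀ g x : G, s g = 1 → s x = 1 → m (x⁻¹ * g * x) = m g := by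
      intro g x hg hx
      have hx' : s x⁻¹ = 1 := by rw [map_inv, hx, inv_one]
      have h2 : m x⁻¹ * m x = 1 := by rw [← hm _ _ hx' hx, inv_mul_cancel, h1]
      rw [hm _ _ (by rw [map_mul, hx', hg, one_mul]) hx, hm _ _ hx' hg]
      calc m x⁻¹ * m g * m x = m g * (m x⁻¹ * m x) := by
            simp only [mul_comm, mul_left_comm, mul_assoc]
        _ = _ := by rw [h2, mul_one]
    have hR : ind s.ker (fun h => ((m h : ℂˣ) : ℂ)) g
        = if s g = 1 then ((e1 s t m g : ℂˣ) : ℂ) + ((e2 s t m g : ℂˣ) : ℂ) else 0 := by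
      rw [ind_two hs ht (fun h => ((m h : ℂˣ) : ℂ))]
      · by_cases h : s g = 1
        · rw [if_pos h, if_pos h, e1_pos h, e2_pos h]
        · rw [if_neg h, if_neg h]
      · intro g x hg hx
        change ((m (x⁻¹ * g * x) : ℂˣ) : ℂ) = ((m g : ℂˣ) : ℂ)
        rw [hmc g x hg hx]
    have hL : ind (s * etaHom hs ht hm).ker (fun h => ((ψ h : ℂˣ) : ℂ)) g
        = if (s * etaHom hs ht hm) g = 1 then
            ((ps s t m g : ℂˣ) : ℂ) + ((ps s t m (u⁻¹ * g * u) : ℂˣ) : ℂ) else 0 := by
      have e : (fun h : (s * etaHom hs ht hm).ker => ((ψ h : ℂˣ) : ℂ))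
          = fun h : (s * etaHom hs ht hm).ker => (fun y : G => ((ps s t m y : ℂˣ) : ℂ)) h := rfl
      rw [e, ind_two hσ hu (fun y : G => ((ps s t m y : ℂˣ) : ℂ))]
      intro g x hg hx
      have hx' : (s * etaHom hs ht hm) x⁻¹ = 1 := by rw [map_inv, hx, inv_one]
      have hp1 : ps s t m (1 : G) = 1 := by
        rw [ps_pos (map_one s), e1_pos (map_one s), h1]
      have h2 : ps s t m x⁻¹ * ps s t m x = 1 := by
        rw [← ps_mul hs ht hm hm1 hx', inv_mul_cancel, hp1]
      have h3 : ps s t m (x⁻¹ * g * x) = ps s t m g := by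
        rw [ps_mul hs ht hm hm1 (by rw [map_mul, hx', hg, one_mul]), ps_mul hs ht hm hm1 hx']
        calc ps s t m x⁻¹ * ps s t m g * ps s t m x
            = ps s t m g * (ps s t m x⁻¹ * ps s t m x) := by
              simp only [mul_comm, mul_left_comm, mul_assoc]
          _ = _ := by rw [h2, mul_one]
      change ((ps s t m (x⁻¹ * g * x) : ℂˣ) : ℂ) = ((ps s t m g : ℂˣ) : ℂ)
      rw [h3]
    rw [hL, hR]
    have hsc : s (u⁻¹ * g * u) = s g := by
      rw [map_mul, map_mul, map_inv, mul_comm (s u)⁻¹, mul_assoc, inv_mul_cancel, mul_one]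
    rcases hs g with hg | hg <;> rcases hη g with hg' | hg'
    · -- both trivial
      have hk : (s * etaHom hs ht hm) g = 1 := by rw [MonoidHom.mul_apply, hg, hg', one_mul]
      rw [if_pos hk, if_pos hg, ps_pos hg, ps_pos (by rw [hsc, hg]), e_eq hs ht hm hm1 hg',
        e1_conj hs ht hm hm1 hg', if_pos hg]
    · have hk : (s * etaHom hs ht hm) g = -1 := by rw [MonoidHom.mul_apply, hg, hg', one_mul]
      rw [if_neg (by rw [hk]; exact neg_one_ne), if_pos hg]
      rw [etaHom_apply] at hg'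
      rcases e1_sg hs ht hm hm1 g with h | h <;> rcases e2_sg hs ht hm hm1 g with h' | h' <;>
        rw [h, h'] at hg' ⊢
      · rw [one_mul] at hg'; exact absurd hg'.symm neg_one_ne
      · simp
      · simp
      · rw [neg_mul_neg, one_mul] at hg'; exact absurd hg'.symm neg_one_ne
    · have hk : (s * etaHom hs ht hm) g = -1 := by rw [MonoidHom.mul_apply, hg, hg', mul_one]
      rw [if_neg (by rw [hk]; exact neg_one_ne), if_neg (by rw [hg]; exact neg_one_ne)]
    · have hk : (s * etaHom hs ht hm) g = 1 := by rw [MonoidHom.mul_apply, hg, hg']; simp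
      rw [if_pos hk, if_neg (by rw [hg]; exact neg_one_ne), ps_neg hg, ps_neg (by rw [hsc, hg]),
        e1_conj_ker hs ht hm hm1 hk hg, hu]
      simp
end Pool.Agent.W2helper92.SGD4
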