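import Pool.Agent.W2helper37.SG.Stm

/-!
# The odd part of a representation of `gl(p | q)` with vanishing traces
-/

set_option autoImplicit false

namespace Pool.Agent.W2helper92.SG

open Pool.Agent.W2helper37.SG

universe w

section core
variable {K : Type w} [Field K] {Q : Type w} [AddCommGroup Q] [Module K Q]

theorem com_alg (H : Module.End K Q) (d : K) : Commute H (algebraMap K (Module.End K Q) d) :=
  (Algebra.commutes d H).symm

theorem eq_zero_of_nil {H B : Module.End K Q} {d : K} (hd : d ≠ 0) (hH : IsNilpotent H)
    (h : H * B - B * H = d • B) : B = 0 := by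
  obtain ⟨N, hN⟩ := id hH
  have h1 : SemiconjBy B (H + algebraMap K (Module.End K Q) d) H := by
    show B * (H + algebraMap K (Module.End K Q) d) = H * B
    rw [mul_add, ← (Algebra.commutes d B), ← Algebra.smul_def, ← h]
    abel
  have h2 : B * (H + algebraMap K (Module.End K Q) d) ^ N = H ^ N * B := h1.pow_right N
  rw [hN, zero_mul] at h2
  have h3 : IsUnit (algebraMap K (Module.End K Q) d) := (isUnit_iff_ne_zero.2 hd).map _
  have h4 : IsUnit (H + algebraMap K (Module.End K Q) d) := by
    rw [add_comm]
    exact hH.isUnit_add_left_of_commute h3 (com_alg H d)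
  exact (h4.pow N).mul_left_eq_zero.1 h2

variable [Module.Finite K Q]

omit [Module.Finite K Q] in
theorem tr_nil {N : Module.End K Q} (h : IsNilpotent N) : LinearMap.trace K Q N = 0 :=
  (LinearMap.isNilpotent_trace_of_isNilpotent h).eq_zero

omit [Module.Finite K Q] in
theorem tr_expand (H : Module.End K Q) (d : K) (n : ℕ) :
    LinearMap.trace K Q ((H + algebraMap K (Module.End K Q) d) ^ n * H) =
      ∑ m ∈ Finset.range (n + 1), (d ^ (n - m) * (n.choose m : K)) *
        LinearMap.trace K Q (H ^ (m + 1)) := by
  rw [(com_alg H d).add_pow, Finset.sum_mul, map_sum]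
  refine Finset.sum_congr rfl fun m _ => ?_
  have h1 : H ^ m * algebraMap K (Module.End K Q) d ^ (n - m) * (n.choose m : Module.End K Q) * H =
      (d ^ (n - m) * (n.choose m : K)) • H ^ (m + 1) := by
    rw [← map_pow, ← map_natCast (algebraMap K (Module.End K Q)), mul_assoc (H ^ m), ← map_mul,
      ← Algebra.commutes, mul_assoc, ← pow_succ, Algebra.smul_def]
  rw [h1, map_smul, smul_eq_mul]

theorem core [CharZero K] (hNIL : P_NIL.{w}) {H X X' Z : Module.End K Q} {d : K} (hd : d ≠ 0)
    (h1 : X' + X = H) (h2 : X' - X = Z) (hZ : IsNilpotent Z) (hc : Commute H Z)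
    (ht : ∀ j : ℕ, LinearMap.trace K Q (H ^ j * X') =
      LinearMap.trace K Q ((H + algebraMap K (Module.End K Q) d) ^ j * X)) : IsNilpotent H := by
  have h3 : ∀ j : ℕ, LinearMap.trace K Q (H ^ j * H) =
      LinearMap.trace K Q ((H + algebraMap K (Module.End K Q) d) ^ j * H) := by
    intro j
    have e1 : (2 : K) • X' = H + Z := by
      rw [← h1, ← h2, two_smul]
      abel
    have e2 : (2 : K) • X = H - Z := by
      rw [← h1, ← h2, two_smul]
      abel
    have e3 : LinearMap.trace K Q (H ^ j * Z) = 0 :=
      tr_nil ((hc.pow_left j).isNilpotent_mul_left hZ)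
    have hc' : Commute (H + algebraMap K (Module.End K Q) d) Z :=
      hc.add_left (Algebra.commutes d Z)
    have e4 : LinearMap.trace K Q ((H + algebraMap K (Module.End K Q) d) ^ j * Z) = 0 :=
      tr_nil ((hc'.pow_left j).isNilpotent_mul_left hZ)
    have e5 : LinearMap.trace K Q (H ^ j * ((2 : K) • X')) =
        LinearMap.trace K Q ((H + algebraMap K (Module.End K Q) d) ^ j * ((2 : K) • X)) := by
      rw [mul_smul_comm, mul_smul_comm, map_smul, map_smul, ht j]
    rw [e1, e2, mul_add, mul_sub, map_add, map_sub, e3, e4, add_zero, sub_zero] at e5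
    exact e5
  have h4 : ∀ j : ℕ, LinearMap.trace K Q (H ^ (j + 1)) = 0 := by
    intro j
    induction j using Nat.strong_induction_on with
    | _ j ih =>
    have h5 := h3 (j + 1)
    rw [tr_expand, ← pow_succ, Finset.sum_range_succ, Finset.sum_range_succ,
      Finset.sum_eq_zero fun m hm => by rw [ih m (Finset.mem_range.1 hm), mul_zero]] at h5
    rw [Nat.sub_self, pow_zero, Nat.choose_self, Nat.cast_one, one_mul, one_mul, zero_add,
      Nat.add_sub_cancel_left, pow_one, Nat.choose_succ_self_right] at h5
    have h6 : (d * ((j + 1 : ℕ) : K)) * LinearMap.trace K Q (H ^ (j + 1)) = 0 := by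
      linear_combination -h5
    refine (mul_eq_zero.1 h6).resolve_left (mul_ne_zero hd ?_)
    exact_mod_cast Nat.succ_ne_zero j
  exact hNIL K Q H h4

end core

section rel
variable {K : Type w} [Field K] {ι : Type} [Fintype ι] [DecidableEq ι] {o : ι → Bool} {Q : Type w}
  [AddCommGroup Q] [Module K Q] {A : ι → ι → Module.End K Q}

omit [Fintype ι] [DecidableEq ι] in
theorem ne_of {a b : ι} (ha : o a = false) (hb : o b = true) : a ≠ b := by
  rintro rfl
  rw [ha] at hb
  exact Bool.false_ne_true hb

omit [Fintype ι] in
theorem rel1 (hA : GlRel o A) {a b : ι} (ha : o a = false) (hb : o b = true) :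
    A a b * A b a + A b a * A a b = A a a - A b b := by
  have h := hA b a a b
  simp [cc, ha, hb] at h
  rw [add_comm, h]

omit [Fintype ι] in
theorem rel2 (hA : GlRel o A) {a c b : ι} (ha : o a = false) (hc : o c = false) (hb : o b = true) :
    A a a * A c b - A c b * A a a = - (if a = c then A c b else 0) := by
  have h := hA a a c b
  simp [cc, ha, hb, hc, ne_of ha hb] at h
  rw [h]
  by_cases hac : a = c
  · simp [hac]
  · simp [hac, Ne.symm hac]

omit [Fintype ι] in
theorem rel3 (hA : GlRel o A) {a c b : ι} (ha : o a = true) (hc : o c = false) (hb : o b = true) :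
    A a a * A c b - A c b * A a a = - (if a = b then A c b else 0) := by
  have h := hA a a c b
  simp [cc, ha, hb, hc, ne_of hc ha] at h
  rw [h]
  by_cases hac : a = b
  · simp [hac]
  · simp [hac]

omit [Fintype ι] in
theorem rel4 (hA : GlRel o A) {a c b : ι} (ha : o a = false) (hc : o c = false) (hb : o b = true) :
    A a a * A b c - A b c * A a a = if a = c then A b c else 0 := by
  have h := hA a a b c
  simp [cc, ha, hb, hc, (ne_of ha hb).symm] at h
  rw [h]
  by_cases hac : a = c
  · simp [hac]
  · simp [hac]

omit [Fintype ι] in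
theorem rel5 (hA : GlRel o A) {a c b : ι} (ha : o a = true) (hc : o c = false) (hb : o b = true) :
    A a a * A b c - A b c * A a a = if a = b then A b c else 0 := by
  have h := hA a a b c
  simp [cc, ha, hb, hc, (ne_of hc ha).symm] at h
  rw [h]
  by_cases hac : a = b
  · simp [hac]
  · simp [hac, Ne.symm hac]

end rel

section main
variable {K : Type w} [Field K] {ι : Type} [Fintype ι] [DecidableEq ι] {o : ι → Bool} {Q : Type w}
  [AddCommGroup Q] [Module K Q] {A : ι → ι → Module.End K Q}

/-- the sum of the diagonal entries of parity `b` -/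
def S (o : ι → Bool) (A : ι → ι → Module.End K Q) (b : Bool) : Module.End K Q :=
  ∑ i with o i = b, A i i

theorem sum2 (hA : GlRel o A) {c b : ι} (hc : o c = false) (hb : o b = true) :
    S o A false * A c b - A c b * S o A false = -A c b := by
  unfold S
  rw [Finset.sum_mul, Finset.mul_sum, ← Finset.sum_sub_distrib,
    Finset.sum_congr rfl fun a ha => rel2 hA (Finset.mem_filter.1 ha).2 hc hb]
  simp [hc]

theorem sum3 (hA : GlRel o A) {c b : ι} (hc : o c = false) (hb : o b = true) :
    S o A true * A c b - A c b * S o A true = -A c b := by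
  unfold S
  rw [Finset.sum_mul, Finset.mul_sum, ← Finset.sum_sub_distrib,
    Finset.sum_congr rfl fun a ha => rel3 hA (Finset.mem_filter.1 ha).2 hc hb]
  simp [hb]

theorem sum4 (hA : GlRel o A) {c b : ι} (hc : o c = false) (hb : o b = true) :
    S o A false * A b c - A b c * S o A false = A b c := by
  unfold S
  rw [Finset.sum_mul, Finset.mul_sum, ← Finset.sum_sub_distrib,
    Finset.sum_congr rfl fun a ha => rel4 hA (Finset.mem_filter.1 ha).2 hc hb]
  simp [hc]

theorem sum5 (hA : GlRel o A) {c b : ι} (hc : o c = false) (hb : o b = true) :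
    S o A true * A b c - A b c * S o A true = A b c := by
  unfold S
  rw [Finset.sum_mul, Finset.mul_sum, ← Finset.sum_sub_distrib,
    Finset.sum_congr rfl fun a ha => rel5 hA (Finset.mem_filter.1 ha).2 hc hb]
  simp [hb]

/-- the sum of the squares -/
noncomputable def HH (o : ι → Bool) (A : ι → ι → Module.End K Q) : Module.End K Q :=
  (num o true : K) • S o A false - (num o false : K) • S o A true

theorem com1 (hA : GlRel o A) {c b : ι} (hc : o c = false) (hb : o b = true) :
    HH o A * A c b - A c b * HH o A = ((num o false : K) - num o true) • A c b := by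
  have e : HH o A * A c b - A c b * HH o A =
      (num o true : K) • (S o A false * A c b - A c b * S o A false) -
        (num o false : K) • (S o A true * A c b - A c b * S o A true) := by
    unfold HH
    simp only [sub_mul, mul_sub, smul_mul_assoc, mul_smul_comm, smul_sub]
    abel
  rw [e, sum2 hA hc hb, sum3 hA hc hb, sub_smul, smul_neg, smul_neg]
  abel

theorem com2 (hA : GlRel o A) {c b : ι} (hc : o c = false) (hb : o b = true) :
    HH o A * A b c - A b c * HH o A = (-((num o false : K) - num o true)) • A b c := by
  have e : HH o A * A b c - A b c * HH o A =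
      (num o true : K) • (S o A false * A b c - A b c * S o A false) -
        (num o false : K) • (S o A true * A b c - A b c * S o A true) := by
    unfold HH
    simp only [sub_mul, mul_sub, smul_mul_assoc, mul_smul_comm, smul_sub]
    abel
  rw [e, sum4 hA hc hb, sum5 hA hc hb, neg_smul, sub_smul]
  abel

omit [Fintype ι] [DecidableEq ι] in
theorem com_mul {H B B' : Module.End K Q} {d : K} (h : H * B - B * H = d • B)
    (h' : H * B' - B' * H = (-d) • B') : Commute H (B * B') := by
  have e : H * (B * B') - B * B' * H = (H * B - B * H) * B' + B * (H * B' - B' * H) := by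
    noncomm_ring
  rw [h, h', smul_mul_assoc, mul_smul_comm, neg_smul, add_neg_cancel] at e
  exact sub_eq_zero.1 e

omit [DecidableEq ι] in
theorem XX_true : XX o A true =
    ∑ k with o k = false, ∑ i with o i = true, A i k * A k i := by
  unfold XX
  rw [Finset.sum_comm' (t' := Finset.univ.filter fun i => o i = false)
    (s' := fun _ => Finset.univ.filter fun i => o i = true)]
  intro x y
  simp only [Finset.mem_filter, Finset.mem_univ, true_and, ne_eq, Bool.not_eq_true]

omit [DecidableEq ι] in
theorem XX_false : XX o A false =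
    ∑ k with o k = false, ∑ i with o i = true, A k i * A i k := by
  unfold XX
  simp only [ne_eq, Bool.not_eq_false]

theorem XX_add (hA : GlRel o A) : XX o A false + XX o A true = HH o A := by
  rw [XX_true, XX_false, ← Finset.sum_add_distrib]
  have h1 : ∀ k ∈ Finset.univ.filter fun k => o k = false,
      (∑ i with o i = true, A k i * A i k) + ∑ i with o i = true, A i k * A k i =
        (num o true : K) • A k k - S o A true := by
    intro k hk
    rw [← Finset.sum_add_distrib, Finset.sum_congr rfl fun i hi =>
      rel1 hA (Finset.mem_filter.1 hk).2 (Finset.mem_filter.1 hi).2, Finset.sum_sub_distrib,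
      Finset.sum_const]
    unfold S num
    rw [Nat.cast_smul_eq_nsmul]
  rw [Finset.sum_congr rfl h1, Finset.sum_sub_distrib, Finset.sum_const, ← Finset.smul_sum]
  unfold HH
  rw [Nat.cast_smul_eq_nsmul K (num o false)]
  rfl

theorem com_ZZ (hA : GlRel o A) : Commute (HH o A) (ZZ o A) := by
  unfold ZZ
  rw [XX_true, XX_false]
  refine Commute.sub_right ?_ ?_
  · refine Commute.sum_right _ _ _ fun k hk => Commute.sum_right _ _ _ fun i hi => ?_
    exact com_mul (com1 hA (Finset.mem_filter.1 hk).2 (Finset.mem_filter.1 hi).2)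
      (com2 hA (Finset.mem_filter.1 hk).2 (Finset.mem_filter.1 hi).2)
  · refine Commute.sum_right _ _ _ fun k hk => Commute.sum_right _ _ _ fun i hi => ?_
    refine com_mul (com2 hA (Finset.mem_filter.1 hk).2 (Finset.mem_filter.1 hi).2) ?_
    rw [neg_neg]
    exact com1 hA (Finset.mem_filter.1 hk).2 (Finset.mem_filter.1 hi).2

theorem tr_XX (hA : GlRel o A) (j : ℕ) :
    LinearMap.trace K Q (HH o A ^ j * XX o A false) =
      LinearMap.trace K Q ((HH o A + algebraMap K (Module.End K Q)
        ((num o false : K) - num o true)) ^ j * XX o A true) := by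
  rw [XX_true, XX_false, Finset.mul_sum, Finset.mul_sum, map_sum, map_sum]
  refine Finset.sum_congr rfl fun k hk => ?_
  rw [Finset.mul_sum, Finset.mul_sum, map_sum, map_sum]
  refine Finset.sum_congr rfl fun i hi => ?_
  have h1 : SemiconjBy (A i k) (HH o A) (HH o A + algebraMap K (Module.End K Q)
      ((num o false : K) - num o true)) := by
    have h2 := com2 hA (Finset.mem_filter.1 hk).2 (Finset.mem_filter.1 hi).2
    show A i k * HH o A = (HH o A + algebraMap K (Module.End K Q)
      ((num o false : K) - num o true)) * A i k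
    rw [add_mul, ← Algebra.smul_def]
    rw [neg_smul] at h2
    rw [← neg_eq_iff_eq_neg.2 h2.symm.symm]
    abel
  have h2 := h1.pow_right j
  have h3 : A i k * HH o A ^ j = _ := h2
  rw [← mul_assoc, LinearMap.trace_mul_comm, ← mul_assoc, h3, mul_assoc]

/-- **LA.** -/
theorem p_la (hNIL : P_NIL.{w}) : P_LA.{w} := by
  intro K _ _ ι _ _ o Q _ _ _ A hA hpq ht
  have hd : (num o false : K) - num o true ≠ 0 := by
    rw [sub_ne_zero]
    exact_mod_cast hpq
  have hZ : IsNilpotent (ZZ o A) := by
    apply hNIL K Q
    intro n
    have h1 : ZZ o A ^ (n + 1) = ZZ o A ^ n * XX o A false - ZZ o A ^ n * XX o A true := by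
      rw [pow_succ, ← mul_sub]
      rfl
    rw [h1, map_sub, (ht n).1, (ht n).2, sub_zero]
  have hH : IsNilpotent (HH o A) :=
    core hNIL hd (XX_add hA) rfl hZ (com_ZZ hA) (tr_XX hA)
  intro k i hki
  rcases hk : o k with _ | _
  · have hi : o i = true := by
      rw [hk] at hki
      exact (Bool.eq_true_of_not_eq_false fun h => hki h.symm)
    exact eq_zero_of_nil hd hH (com1 hA hk hi)
  · have hi : o i = false := by
      rw [hk] at hki
      exact (Bool.eq_false_of_not_eq_true fun h => hki h.symm)
    exact eq_zero_of_nil (neg_ne_zero.2 hd) hH (com2 hA hi hk)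

end main

end Pool.Agent.W2helper92.SG
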